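import Pool.Agent.P8H99.GO.Stm

/-!
# Package CRD of project OD: the cardinality of the family of structures
-/

set_option autoImplicit false

namespace Pool.Agent.P8H52.OD

open Finset Pool.Agent.P8H99.GO

lemma prod_aux {n : ℕ} (h2 : 2 < n) (M X Y : Finset (Fin n)) (a b d e : ℕ) (f : Fin n → ℕ)
    (hf : ∀ p, f p = ((if p ∈ X then a else 1) * (if p ∈ M then b else 1) * (if p ∈ Y then d else 1)) *
      (if p = ⟨2, h2⟩ then e else 1)) :
    ∏ p, f p = a ^ X.card * b ^ M.card * d ^ Y.card * e := by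
  rw [Finset.prod_congr rfl (fun p _ => hf p)]
  rw [Finset.prod_mul_distrib, Finset.prod_mul_distrib, Finset.prod_mul_distrib,
    Finset.prod_ite_mem, Finset.prod_ite_mem, Finset.prod_ite_mem, Finset.prod_ite_eq']
  simp

lemma mem_W {k n : ℕ} {p : Fin n} : p ∈ W k n ↔ k - 2 ≤ (p : ℕ) := by
  simp [W]

lemma spe_eq {n i : ℕ} (h : i < n) : spe n i = {⟨i, h⟩} := by
  ext q
  simp [spe, Fin.ext_iff]

lemma card_nonempty_powerset {n : ℕ} (S : Finset (Fin n)) : (S.powerset.erase ∅).card = 2 ^ S.card - 1 := by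
  rw [Finset.card_erase_of_mem (by simp), Finset.card_powerset]

lemma cov_M {k n : ℕ} {M X : Finset (Fin n)} (hk : 5 ≤ k) (hM : M ⊆ W k n) (hd : Disjoint M X)
    {p : Fin n} (hp : p ∈ M) : cov k M X p = (X ∪ spe n 1).powerset.erase ∅ := by
  have h1 := mem_W.1 (hM hp)
  have h2 : p ∉ X := fun h => (Finset.disjoint_left.1 hd hp) h
  have e0 : ¬ (p : ℕ) = 0 := by omega
  have e1 : ¬ (p : ℕ) = 1 := by omega
  have e2 : ¬ (p : ℕ) = 2 := by omega
  have e3 : ¬ (p : ℕ) < k - 2 := by omega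
  unfold cov
  rw [if_neg e0, if_neg e1, if_neg e2, if_neg e3, if_neg h2, if_pos hp]

lemma cov_card {k n : ℕ} {M X : Finset (Fin n)} (hk : 5 ≤ k) (h2n : 2 < n)
    (hX : X ⊆ W k n) (b : ℕ) (p : Fin n) (hp : p ∉ M) :
    (cov k M X p).card = ((if p ∈ X then 2 else 1) * (if p ∈ M then b else 1) *
      (if p ∈ W k n \ (M ∪ X) then (2 ^ M.card - 1) else 1)) *
      (if p = ⟨2, h2n⟩ then 2 ^ (W k n \ (M ∪ X)).card - 1 else 1) := by
  rw [if_neg hp]
  by_cases hW : p ∈ W k n
  · have h1 := mem_W.1 hW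
    have e0 : ¬ (p : ℕ) = 0 := by omega
    have e1 : ¬ (p : ℕ) = 1 := by omega
    have e2 : ¬ (p : ℕ) = 2 := by omega
    have e3 : ¬ (p : ℕ) < k - 2 := by omega
    have e4 : ¬ p = ⟨2, h2n⟩ := fun h => e2 (by rw [h])
    unfold cov
    rw [if_neg e0, if_neg e1, if_neg e2, if_neg e3, if_neg e4]
    by_cases hx : p ∈ X
    · have e5 : p ∉ W k n \ (M ∪ X) := by simp [hx]
      rw [if_pos hx, if_pos hx, if_neg e5, spe_eq (show 0 < n by omega)]
      rw [Finset.card_pair (Finset.singleton_nonempty _).ne_empty.symm]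
    · have e5 : p ∈ W k n \ (M ∪ X) := by simp [hx, hp, hW]
      rw [if_neg hx, if_neg hx, if_pos e5, if_neg hp, card_nonempty_powerset]
      ring
  · have h1 : ¬ k - 2 ≤ (p : ℕ) := fun h => hW (mem_W.2 h)
    have hx : p ∉ X := fun h => hW (hX h)
    have e5 : p ∉ W k n \ (M ∪ X) := by simp [hW]
    rw [if_neg hx, if_neg e5]
    unfold cov
    by_cases e0 : (p : ℕ) = 0
    · have e4 : ¬ p = ⟨2, h2n⟩ := fun h => by rw [h] at e0; simp at e0
      rw [if_pos e0, if_neg e4]; simp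
    by_cases e1 : (p : ℕ) = 1
    · have e4 : ¬ p = ⟨2, h2n⟩ := fun h => by rw [h] at e1; simp at e1
      rw [if_neg e0, if_pos e1, if_neg e4]; simp
    by_cases e2 : (p : ℕ) = 2
    · have e4 : p = ⟨2, h2n⟩ := Fin.ext e2
      rw [if_neg e0, if_neg e1, if_pos e2, if_pos e4, card_nonempty_powerset]
      ring
    · have e4 : ¬ p = ⟨2, h2n⟩ := fun h => e2 (by rw [h])
      rw [if_neg e0, if_neg e1, if_neg e2, if_pos (by omega), if_neg e4]; simp

/-- The sets which do not contain both `x` and `u`. -/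
lemma card_avoid {n : ℕ} (S : Finset (Fin n)) (x u : Fin n) (hx : x ∈ S) (hu : u ∈ S) (hxu : x ≠ u) :
    ((S.powerset.filter (fun A => ¬ (x ∈ A ∧ u ∈ A))).card) = 2 ^ S.card - 2 ^ (S.card - 2) := by
  have h1 := Finset.card_filter_add_card_filter_not (s := S.powerset) (fun A => x ∈ A ∧ u ∈ A)
  have h2 : S.powerset.filter (fun A => x ∈ A ∧ u ∈ A) = Finset.Icc {x, u} S := by
    ext A
    simp only [Finset.mem_filter, Finset.mem_powerset, Finset.mem_Icc,
      Finset.insert_subset_iff, Finset.singleton_subset_iff]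
    tauto
  have h3 : (Finset.Icc {x, u} S).card = 2 ^ (S.card - 2) := by
    rw [Finset.card_Icc_finset (by
      intro z hz
      simp only [Finset.mem_insert, Finset.mem_singleton] at hz
      rcases hz with rfl | rfl <;> assumption), Finset.card_pair hxu]
  rw [h2, h3, Finset.card_powerset] at h1
  omega

open Classical in
lemma bad_card {k n : ℕ} {M X : Finset (Fin n)} (hk : 5 ≤ k) (hkn : k < n) (hM : M ⊆ W k n)
    (hX : X ⊆ W k n) (hd : Disjoint M X) (x : Fin n) (hx : x ∈ X) :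
    ((Fintype.piFinset (cov k M X)).filter
      (fun c : Fin n → Finset (Fin n) => ¬ ∃ q ∈ M, x ∈ c q ∧ ∃ u ∈ c q, (u : ℕ) = 1)).card ≤
    2 ^ X.card * (3 * 2 ^ (X.card - 1)) ^ M.card * (2 ^ M.card - 1) ^ (W k n \ (M ∪ X)).card *
      (2 ^ (W k n \ (M ∪ X)).card - 1) := by
  have h2n : 2 < n := by omega
  have h1n : 1 < n := by omega
  set S : Finset (Fin n) := X ∪ spe n 1 with hS
  have h1X : (⟨1, h1n⟩ : Fin n) ∉ X := by
    intro h
    have := mem_W.1 (hX h)
    simp at this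
    omega
  have hxS : x ∈ S := by rw [hS]; exact Finset.mem_union_left _ hx
  have huS : (⟨1, h1n⟩ : Fin n) ∈ S := by
    rw [hS, spe_eq h1n]; simp
  have hxu : x ≠ ⟨1, h1n⟩ := fun h => h1X (h ▸ hx)
  have hScard : S.card = X.card + 1 := by
    rw [hS, spe_eq h1n, Finset.card_union_of_disjoint (by simpa using h1X)]
    simp
  set F : Fin n → Finset (Finset (Fin n)) := fun q => if q ∈ M then
    S.powerset.filter (fun A => ¬ (x ∈ A ∧ (⟨1, h1n⟩ : Fin n) ∈ A)) else cov k M X q with hF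
  have hsub : (Fintype.piFinset (cov k M X)).filter
      (fun c : Fin n → Finset (Fin n) => ¬ ∃ q ∈ M, x ∈ c q ∧ ∃ u ∈ c q, (u : ℕ) = 1) ⊆ Fintype.piFinset F := by
    intro c hc
    rw [Finset.mem_filter, Fintype.mem_piFinset] at hc
    rw [Fintype.mem_piFinset]
    intro q
    by_cases hq : q ∈ M
    · have h3 := hc.1 q
      rw [cov_M hk hM hd hq] at h3
      rw [hF]
      simp only [if_pos hq, Finset.mem_filter]
      refine ⟨(Finset.mem_erase.1 h3).2, fun h4 => hc.2 ⟨q, hq, h4.1, ⟨1, h1n⟩, h4.2, rfl⟩⟩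
    · rw [hF]
      simp only [if_neg hq]
      exact hc.1 q
  refine (Finset.card_le_card hsub).trans ?_
  rw [Fintype.card_piFinset]
  rw [prod_aux h2n M X (W k n \ (M ∪ X)) 2 (3 * 2 ^ (X.card - 1)) (2 ^ M.card - 1)
    (2 ^ (W k n \ (M ∪ X)).card - 1)]
  intro p
  by_cases hp : p ∈ M
  · have hpX : p ∉ X := fun h => (Finset.disjoint_left.1 hd hp) h
    have hpY : p ∉ W k n \ (M ∪ X) := by simp [hp]
    have hp2 : ¬ p = ⟨2, h2n⟩ := by
      intro h
      have := mem_W.1 (hM hp)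
      rw [h] at this
      simp at this
      omega
    rw [if_neg hpX, if_pos hp, if_neg hpY, if_neg hp2, hF]
    simp only [if_pos hp]
    rw [card_avoid S x _ hxS huS hxu, hScard]
    obtain ⟨t, ht⟩ : ∃ t, X.card = t + 1 := ⟨X.card - 1, by
      have := Finset.card_pos.2 ⟨x, hx⟩
      omega⟩
    rw [ht]
    have e1 : t + 1 + 1 - 2 = t := by omega
    have e2 : t + 1 - 1 = t := by omega
    rw [e1, e2]
    have : 2 ^ (t + 1 + 1) = 4 * 2 ^ t := by ring
    omega
  · rw [hF]
    simp only [if_neg hp]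
    have := cov_card hk h2n hX (3 * 2 ^ (X.card - 1)) p hp
    rw [this, if_neg hp]

open Classical in
lemma all_card {k n : ℕ} {M X : Finset (Fin n)} (hk : 5 ≤ k) (hkn : k < n) (hM : M ⊆ W k n)
    (hX : X ⊆ W k n) (hd : Disjoint M X) :
    (Fintype.piFinset (cov k M X)).card =
    2 ^ X.card * (2 ^ (X.card + 1) - 1) ^ M.card * (2 ^ M.card - 1) ^ (W k n \ (M ∪ X)).card *
      (2 ^ (W k n \ (M ∪ X)).card - 1) := by
  have h2n : 2 < n := by omega
  have h1n : 1 < n := by omega
  have h1X : (⟨1, h1n⟩ : Fin n) ∉ X := by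
    intro h
    have := mem_W.1 (hX h)
    simp at this
    omega
  have hScard : (X ∪ spe n 1).card = X.card + 1 := by
    rw [spe_eq h1n, Finset.card_union_of_disjoint (by simpa using h1X)]
    simp
  rw [Fintype.card_piFinset]
  rw [prod_aux h2n M X (W k n \ (M ∪ X)) 2 (2 ^ (X.card + 1) - 1) (2 ^ M.card - 1)
    (2 ^ (W k n \ (M ∪ X)).card - 1)]
  intro p
  by_cases hp : p ∈ M
  · have hpX : p ∉ X := fun h => (Finset.disjoint_left.1 hd hp) h
    have hpY : p ∉ W k n \ (M ∪ X) := by simp [hp]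
    have hp2 : ¬ p = ⟨2, h2n⟩ := by
      intro h
      have := mem_W.1 (hM hp)
      rw [h] at this
      simp at this
      omega
    rw [if_neg hpX, if_pos hp, if_neg hpY, if_neg hp2, cov_M hk hM hd hp, card_nonempty_powerset, hScard]
    ring
  · exact cov_card hk h2n hX (2 ^ (X.card + 1) - 1) p hp

lemma arith (A B C D E : ℕ) : A * (B - C) * D * E = A * B * D * E - A * C * D * E := by
  rw [Nat.mul_sub, Nat.sub_mul, Nat.sub_mul]

theorem crd : S_CRD := by
  classical
  intro k n M X hk hkn hM hX hd hXne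
  set P := Fintype.piFinset (cov k M X) with hP
  set A := 2 ^ X.card with hA
  set D := (2 ^ M.card - 1) ^ (W k n \ (M ∪ X)).card with hD
  set E := (2 ^ (W k n \ (M ∪ X)).card - 1) with hE
  set B := (2 ^ (X.card + 1) - 1) ^ M.card with hB
  set C := (3 * 2 ^ (X.card - 1)) ^ M.card with hC
  have h1 : P.card = A * B * D * E := all_card hk hkn hM hX hd
  have h2 : P ⊆ P.filter (fun c => Lnk M X c) ∪ X.biUnion (fun x => P.filter
      (fun c : Fin n → Finset (Fin n) => ¬ ∃ q ∈ M, x ∈ c q ∧ ∃ u ∈ c q, (u : ℕ) = 1)) := by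
    intro c hc
    by_cases hl : Lnk M X c
    · exact Finset.mem_union_left _ (Finset.mem_filter.2 ⟨hc, hl⟩)
    · refine Finset.mem_union_right _ ?_
      unfold Lnk at hl
      push Not at hl
      obtain ⟨x, hx, hx2⟩ := hl
      refine Finset.mem_biUnion.2 ⟨x, hx, Finset.mem_filter.2 ⟨hc, ?_⟩⟩
      rintro ⟨q, hq, h3, u, hu, hu1⟩
      exact hx2 q hq h3 u hu hu1
  have h3 : P.card ≤ (P.filter (fun c => Lnk M X c)).card + X.card * (A * C * D * E) := by
    refine (Finset.card_le_card h2).trans ((Finset.card_union_le _ _).trans ?_)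
    refine Nat.add_le_add_left ?_ _
    refine Finset.card_biUnion_le.trans ?_
    refine (Finset.sum_le_card_nsmul _ _ (A * C * D * E) ?_).trans (by simp)
    intro x hx
    exact bad_card hk hkn hM hX hd x hx
  rw [h1] at h3
  have h4 : A * (B - X.card * C) * D * E = A * B * D * E - X.card * (A * C * D * E) := by
    exact arith A B (X.card * C) D E |>.trans (by congr 1; ring)
  have h5 : A * (B - X.card * C) * D * E ≤ (P.filter (fun c => Lnk M X c)).card := by
    rw [h4]; omega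
  exact h5

end Pool.Agent.P8H52.OD
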