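import Pool.Agent.P8H99.GO.Stm

/-!
# Package LCT of project OD: the family gives that many graded orders
-/

set_option autoImplicit false

namespace Pool.Agent.P8H52.OD

open Finset Pool.Agent.P8H99.GO
open Pool.Agent.Results.MP_ac85ec_co.FourLevels (GradedWithLevels a ord)

namespace Lct

lemma mem_W {k n : ℕ} {p : Fin n} : p ∈ W k n ↔ k - 2 ≤ (p : ℕ) := by
  simp [W]

lemma card_W {k n : ℕ} (hk : 5 ≤ k) (hkn : k < n) : (W k n).card = n - (k - 2) := by
  have h : W k n = Finset.Ici (⟨k - 2, by omega⟩ : Fin n) := by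
    ext p
    rw [mem_W, Finset.mem_Ici, Fin.le_def]
  rw [h, Fin.card_Ici]

open Classical in
/-- The data counted. -/
noncomputable def Idx (k n m t : ℕ) : Finset (Σ _ : Finset (Fin n), Σ _ : Finset (Fin n),
    (Fin n → Finset (Fin n))) :=
  (powersetCard m (W k n)).sigma (fun M =>
    (powersetCard t (W k n \ M)).sigma (fun X =>
      (Fintype.piFinset (cov k M X)).filter (fun c => Lnk M X c)))

lemma lev_M {k n : ℕ} {M X : Finset (Fin n)} (hk : 5 ≤ k) (hM : M ⊆ W k n) (hd : Disjoint M X)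
    (p : Fin n) : p ∈ M ↔ lev k M X p = 2 := by
  unfold lev
  by_cases hp : p ∈ M
  · have h1 := mem_W.1 (hM hp)
    have h2 : p ∉ X := Finset.disjoint_left.1 hd hp
    rw [if_neg (by omega), if_neg (by omega), if_neg (by omega), if_neg h2, if_pos hp]
    simp [hp]
  · refine ⟨fun h => absurd h hp, fun h => ?_⟩
    exfalso
    by_cases e0 : (p : ℕ) = 0
    · rw [if_pos e0] at h; omega
    by_cases e1 : (p : ℕ) = 1
    · rw [if_neg e0, if_pos e1] at h; omega
    by_cases e2 : (p : ℕ) < k - 2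
    · rw [if_neg e0, if_neg e1, if_pos e2] at h; omega
    rw [if_neg e0, if_neg e1, if_neg e2, if_neg hp] at h
    split_ifs at h <;> omega

lemma lev_X {k n : ℕ} {M X : Finset (Fin n)} (hk : 5 ≤ k) (hX : X ⊆ W k n)
    (p : Fin n) : p ∈ X ↔ (k - 2 ≤ (p : ℕ) ∧ lev k M X p = 1) := by
  unfold lev
  by_cases hp : p ∈ X
  · have h1 := mem_W.1 (hX hp)
    rw [if_neg (by omega), if_neg (by omega), if_neg (by omega), if_pos hp]
    simp [hp, h1]
  · refine ⟨fun h => absurd h hp, fun h => ?_⟩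
    exfalso
    obtain ⟨h1, h⟩ := h
    rw [if_neg (by omega), if_neg (by omega), if_neg (by omega), if_neg hp] at h
    split_ifs at h <;> omega

lemma mem_Idx {k n m t : ℕ} {M X : Finset (Fin n)} {c : Fin n → Finset (Fin n)}
    (h : (⟨M, X, c⟩ : Σ _ : Finset (Fin n), Σ _ : Finset (Fin n), (Fin n → Finset (Fin n))) ∈ Idx k n m t) :
    M ⊆ W k n ∧ M.card = m ∧ X ⊆ W k n ∧ X.card = t ∧ Disjoint M X ∧ (∀ p, c p ∈ cov k M X p) ∧ Lnk M X c := by
  classical
  unfold Idx at h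
  rw [mem_sigma, mem_sigma] at h
  obtain ⟨h1, h2, h3⟩ := h
  simp only at h1 h2 h3
  rw [mem_powersetCard] at h1 h2
  rw [mem_filter, Fintype.mem_piFinset] at h3
  refine ⟨h1.1, h1.2, h2.1.trans Finset.sdiff_subset, h2.2, ?_, h3.1, h3.2⟩
  rw [Finset.disjoint_left]
  intro p hp hpX
  exact (Finset.mem_sdiff.1 (h2.1 hpX)).2 hp

lemma card_rest {k n m t : ℕ} {M X : Finset (Fin n)} (hk : 5 ≤ k) (hkn : k < n) (hM : M ⊆ W k n)
    (hm : M.card = m) (hX : X ⊆ W k n) (ht : X.card = t) (hd : Disjoint M X) :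
    (W k n \ (M ∪ X)).card = n - (k - 2) - m - t := by
  rw [Finset.card_sdiff_of_subset (Finset.union_subset hM hX), Finset.card_union_of_disjoint hd, hm, ht,
    card_W hk hkn]
  omega

lemma card_idx_le (hG : S_GRD) (hU : S_UNQ) (hS : S_STR) {k n m t : ℕ} (hk : 5 ≤ k) (hkn : k < n)
    (hm : 1 ≤ m) (hmt : m + t < n - (k - 2)) : (Idx k n m t).card ≤ a k n := by
  classical
  have h0 : 0 < n := by omega
  have h1 : (Idx k n m t).card = Nat.card (Idx k n m t) := by
    rw [Nat.card_eq_fintype_card, Fintype.card_coe]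
  rw [h1]
  unfold a
  have hstr : ∀ d : Idx k n m t, Str k (lev k d.1.1 d.1.2.1) d.1.2.2 ⟨0, h0⟩ := by
    rintro ⟨⟨M, X, c⟩, hd⟩
    obtain ⟨a1, a2, a3, a4, a5, a6, a7⟩ := mem_Idx hd
    refine hS k n h0 M X c hk hkn a1 a3 a5 (Finset.card_pos.1 (by omega)) ?_ a6 a7
    rw [← Finset.card_pos, card_rest hk hkn a1 a2 a3 a4 a5]
    omega
  refine Nat.card_le_card_of_injective
    (fun d => ⟨ord d.1.2.2, hG k n _ _ _ (hstr d)⟩) ?_
  intro d d' hdd
  have e : ord d.1.2.2 = ord d'.1.2.2 := congrArg Subtype.val hdd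
  obtain ⟨hl, hc⟩ := hU k n _ _ _ _ _ (hstr d) (hstr d') e
  obtain ⟨⟨M, X, c⟩, hd⟩ := d
  obtain ⟨⟨M', X', c'⟩, hd'⟩ := d'
  obtain ⟨a1, a2, a3, a4, a5, a6, a7⟩ := mem_Idx hd
  obtain ⟨b1, b2, b3, b4, b5, b6, b7⟩ := mem_Idx hd'
  simp only at hl hc
  have hA : M = M' := by
    ext p
    rw [lev_M hk a1 a5 p, lev_M hk b1 b5 p, hl]
  have hB : X = X' := by
    ext p
    rw [lev_X (M := M) hk a3 p, lev_X (M := M') hk b3 p, hl]
  subst hA hB hc
  rfl

end Lct

open Lct in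
theorem lct : S_GRD → S_UNQ → S_STR → S_CRD → S_LCT := by
  classical
  intro hG hU hS hC k n m t hk hkn hm ht hmt
  refine le_trans ?_ (card_idx_le hG hU hS hk hkn hm hmt)
  unfold Idx fam
  rw [card_sigma]
  have inner : ∀ M ∈ powersetCard m (W k n), (n - (k - 2) - m).choose t * (2 ^ t * ((2 ^ (t + 1) - 1) ^ m -
      t * (3 * 2 ^ (t - 1)) ^ m) * (2 ^ m - 1) ^ (n - (k - 2) - m - t) * (2 ^ (n - (k - 2) - m - t) - 1)) ≤
      ((powersetCard t (W k n \ M)).sigma (fun X =>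
      (Fintype.piFinset (cov k M X)).filter (fun c => Lnk M X c))).card := by
    intro M hM
    rw [mem_powersetCard] at hM
    rw [card_sigma]
    have cWM : (W k n \ M).card = n - (k - 2) - m := by
      rw [Finset.card_sdiff_of_subset hM.1, hM.2, card_W hk hkn]
    rw [← cWM, ← card_powersetCard, ← smul_eq_mul]
    refine Finset.card_nsmul_le_sum _ _ _ ?_
    intro X hX
    rw [mem_powersetCard] at hX
    have hXW : X ⊆ W k n := hX.1.trans Finset.sdiff_subset
    have hd : Disjoint M X := by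
      rw [Finset.disjoint_left]
      intro p hp hpX
      exact (Finset.mem_sdiff.1 (hX.1 hpX)).2 hp
    have h1 := hC k n M X hk hkn hM.1 hXW hd (Finset.card_pos.1 (by omega))
    rw [card_rest hk hkn hM.1 hM.2 hXW hX.2 hd, hM.2, hX.2] at h1
    rw [cWM]
    exact h1
  rw [← card_W hk hkn] at inner ⊢
  rw [← card_powersetCard, ← smul_eq_mul]
  exact Finset.card_nsmul_le_sum _ _ _ inner

end Pool.Agent.P8H52.OD
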